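import Pool.Agent.R552.DPat.Grid

set_option autoImplicit false
set_option maxHeartbeats 400000

namespace Pool.Agent.R552.DPat

open Finset

/-- greedy count of injections with prescribed ranges -/
theorem greedy {α : Type} [Fintype α] [DecidableEq α] (d : ℕ) : ∀ (h : ℕ) (F : Fin h → Finset α),
    (∀ i, d + i.val ≤ (F i).card) →
      d ^ h ≤ Nat.card {g : Fin h → α // Function.Injective g ∧ ∀ i, g i ∈ F i} := by
  classical
  intro h
  induction h with
  | zero =>
    intro F _
    rw [pow_zero, Nat.one_le_iff_ne_zero, Nat.card_ne_zero]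
    exact ⟨⟨Fin.elim0, fun a => a.elim0, fun a => a.elim0⟩, inferInstance⟩
  | succ h ih =>
    intro F hF
    have h1 := ih (fun i => F i.castSucc) (fun i => hF i.castSucc)
    let f : (Σ g : {g : Fin h → α // Function.Injective g ∧ ∀ i, g i ∈ F i.castSucc},
        {y : α // y ∈ F (Fin.last h) ∧ ∀ i, g.1 i ≠ y}) →
        {g : Fin (h + 1) → α // Function.Injective g ∧ ∀ i, g i ∈ F i} := fun p =>
      ⟨Fin.snoc p.1.1 p.2.1, by
        constructor
        · intro a b hab
          induction a using Fin.lastCases with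
          | last =>
            induction b using Fin.lastCases with
            | last => rfl
            | cast b =>
              rw [Fin.snoc_last, Fin.snoc_castSucc] at hab
              exact absurd hab.symm (p.2.2.2 b)
          | cast a =>
            induction b using Fin.lastCases with
            | last =>
              rw [Fin.snoc_last, Fin.snoc_castSucc] at hab
              exact absurd hab (p.2.2.2 a)
            | cast b =>
              rw [Fin.snoc_castSucc, Fin.snoc_castSucc] at hab
              rw [p.1.2.1 hab]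
        · intro i
          induction i using Fin.lastCases with
          | last => rw [Fin.snoc_last]; exact p.2.2.1
          | cast i => rw [Fin.snoc_castSucc]; exact p.1.2.2 i⟩
    have hf : Function.Injective f := by
      rintro ⟨⟨g, hg⟩, ⟨y, hy⟩⟩ ⟨⟨g', hg'⟩, ⟨y', hy'⟩⟩ hh
      have hs : (Fin.snoc g y : Fin (h + 1) → α) = Fin.snoc g' y' := congrArg Subtype.val hh
      have e1 : g = g' := by
        funext i
        have := congrFun hs i.castSucc
        rwa [Fin.snoc_castSucc, Fin.snoc_castSucc] at this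
      have e2 : y = y' := by
        have := congrFun hs (Fin.last h)
        rwa [Fin.snoc_last, Fin.snoc_last] at this
      subst e1; subst e2; rfl
    have h2 := Nat.card_le_card_of_injective f hf
    rw [Nat.card_eq_fintype_card (α := Σ g : {g : Fin h → α // Function.Injective g ∧
      ∀ i, g i ∈ F i.castSucc}, {y : α // y ∈ F (Fin.last h) ∧ ∀ i, g.1 i ≠ y}),
      Fintype.card_sigma] at h2
    refine le_trans ?_ h2
    have h3 : ∀ g : {g : Fin h → α // Function.Injective g ∧ ∀ i, g i ∈ F i.castSucc},
        d ≤ Fintype.card {y : α // y ∈ F (Fin.last h) ∧ ∀ i, g.1 i ≠ y} := by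
      intro g
      rw [Fintype.card_subtype]
      have h4 : F (Fin.last h) \ univ.image g.1 ⊆
          univ.filter (fun y => y ∈ F (Fin.last h) ∧ ∀ i, g.1 i ≠ y) := by
        intro y hy
        simp only [mem_sdiff, mem_image, mem_univ, true_and, not_exists] at hy
        simp only [mem_filter, mem_univ, true_and]
        exact hy
      have h5 := card_le_card h4
      have h6 := le_card_sdiff (univ.image g.1) (F (Fin.last h))
      have h7 : (univ.image g.1).card ≤ h := by
        calc _ ≤ (univ : Finset (Fin h)).card := card_image_le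
          _ = h := by simp
      have h8 := hF (Fin.last h)
      simp only [Fin.val_last] at h8
      omega
    calc d ^ (h + 1) = d ^ h * d := pow_succ _ _
      _ ≤ Nat.card {g : Fin h → α // Function.Injective g ∧ ∀ i, g i ∈ F i.castSucc} * d :=
          Nat.mul_le_mul_right _ h1
      _ = ∑ _g : {g : Fin h → α // Function.Injective g ∧ ∀ i, g i ∈ F i.castSucc}, d := by
          rw [sum_const, card_univ, smul_eq_mul, Nat.card_eq_fintype_card]
      _ ≤ _ := Finset.sum_le_sum fun g _ => h3 g

/-- standardization -/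
theorem standardize {h N : ℕ} (g : Fin h → Fin N) (hg : Function.Injective g) :
    ∃ τ : Equiv.Perm (Fin h), (∀ i j, τ i < τ j ↔ g i < g j) ∧
      ∀ i, g i = (univ.image g).orderEmbOfFin
        (by rw [card_image_of_injective _ hg]; simp) (τ i) := by
  have hS : (univ.image g).card = h := by rw [card_image_of_injective _ hg]; simp
  let e : Fin h ≃o (univ.image g : Finset (Fin N)) := (univ.image g).orderIsoOfFin hS
  let t : Fin h → Fin h := fun i => e.symm ⟨g i, mem_image_of_mem g (mem_univ i)⟩
  have ht : Function.Injective t := by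
    intro i j hij
    have := e.symm.injective hij
    exact hg (congrArg Subtype.val this)
  refine ⟨Equiv.ofBijective t (Finite.injective_iff_bijective.1 ht), ?_, ?_⟩
  · intro i j
    change t i < t j ↔ _
    simp only [t]
    rw [e.symm.lt_iff_lt]
    exact Iff.rfl
  · intro i
    change g i = (e (t i)).1
    simp [t]

theorem card_G_le {R Q k h : ℕ} (hk : 2 ≤ k) {c : Dy R × Dy R → Fin Q} (hc : ¬ Bad k c)
    {ρ : Fin h → Fin (2 ^ R)} (hρ : StrictMono ρ) :
    Nat.card {g : Fin h → Fin (2 ^ R) // Function.Injective g ∧ ∀ i, One c (ρ i) (g i)} ≤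
      (Av h 0 (grid k)).ncard * 2 ^ (2 ^ R) := by
  classical
  choose τ hτ hτ2 using fun g : {g : Fin h → Fin (2 ^ R) //
    Function.Injective g ∧ ∀ i, One c (ρ i) (g i)} => standardize g.1 g.2.1
  let f : {g : Fin h → Fin (2 ^ R) // Function.Injective g ∧ ∀ i, One c (ρ i) (g i)} →
      (Av h 0 (grid k)) × Finset (Fin (2 ^ R)) := fun g =>
    (⟨τ g, grid_avoided hk hc hρ g.2.2 (hτ g)⟩, univ.image g.1)
  have hf : Function.Injective f := by
    intro g g' hgg
    have e1 : τ g = τ g' := congrArg (fun p => p.1.1) hgg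
    have e2 : univ.image g.1 = univ.image g'.1 := congrArg Prod.snd hgg
    apply Subtype.ext
    funext i
    rw [hτ2 g i, hτ2 g' i, e1]
    congr 1
    congr 1
  have h1 := Nat.card_le_card_of_injective f hf
  rw [Nat.card_prod] at h1
  have h2 : Nat.card (Finset (Fin (2 ^ R))) = 2 ^ (2 ^ R) := by
    rw [Nat.card_eq_fintype_card, Fintype.card_finset, Fintype.card_fin]
  rw [h2] at h1
  exact h1

/-- enough rows with many ones -/
theorem exists_rows {R Q h : ℕ} (hh : 2 ^ R = 4 * h) (hpos : 0 < h) {c : Dy R × Dy R → Fin Q}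
    (hc : 3 * (2 ^ R) ^ 2 ≤ 4 * Nat.card {p : Fin (2 ^ R) × Fin (2 ^ R) // One c p.1 p.2}) :
    ∃ ρ : Fin h → Fin (2 ^ R), StrictMono ρ ∧
      ∀ i, 2 * h ≤ Nat.card {y : Fin (2 ^ R) // One c (ρ i) y} := by
  classical
  let deg : Fin (2 ^ R) → ℕ := fun x => Nat.card {y : Fin (2 ^ R) // One c x y}
  have hsum : Nat.card {p : Fin (2 ^ R) × Fin (2 ^ R) // One c p.1 p.2} = ∑ x, deg x := by
    have e : {p : Fin (2 ^ R) × Fin (2 ^ R) // One c p.1 p.2} ≃
        (Σ x : Fin (2 ^ R), {y : Fin (2 ^ R) // One c x y}) :=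
      { toFun := fun p => ⟨p.1.1, ⟨p.1.2, p.2⟩⟩
        invFun := fun p => ⟨(p.1, p.2.1), p.2.2⟩
        left_inv := fun _ => rfl
        right_inv := fun _ => rfl }
    rw [Nat.card_congr e, Nat.card_sigma]
  let W := (univ : Finset (Fin (2 ^ R))).filter (fun x => 2 * h ≤ deg x)
  have hdeg : ∀ x, deg x ≤ 4 * h := by
    intro x
    have : deg x ≤ Nat.card (Fin (2 ^ R)) :=
      Nat.card_le_card_of_injective (fun y : {y : Fin (2 ^ R) // One c x y} => y.1)
        Subtype.val_injective
    rw [Nat.card_eq_fintype_card, Fintype.card_fin, hh] at this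
    exact this
  have hb : ∑ x, deg x ≤ ∑ x : Fin (2 ^ R), (2 * h + if 2 * h ≤ deg x then 2 * h else 0) := by
    apply Finset.sum_le_sum
    intro x _
    have := hdeg x
    split_ifs with h1 <;> omega
  rw [sum_add_distrib, sum_const, card_univ, Fintype.card_fin, smul_eq_mul, ← Finset.sum_filter,
    sum_const, smul_eq_mul] at hb
  have hW : h ≤ W.card := by
    rw [hsum] at hc
    have h1 : 3 * (4 * h) ^ 2 ≤ 4 * (4 * h * (2 * h) + W.card * (2 * h)) := by
      rw [← hh]
      calc _ ≤ 4 * ∑ x, deg x := hc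
        _ ≤ _ := Nat.mul_le_mul_left _ hb
    have h2 : (8 * h) * (2 * h) ≤ (8 * h) * W.card := by nlinarith
    have h3 := Nat.le_of_mul_le_mul_left h2 (by omega)
    omega
  obtain ⟨W', hW', hWc⟩ := Finset.exists_subset_card_eq hW
  refine ⟨W'.orderEmbOfFin hWc, (W'.orderEmbOfFin hWc).strictMono, ?_⟩
  intro i
  have := hW' (W'.orderEmbOfFin_mem hWc i)
  simp only [W, mem_filter, mem_univ, true_and] at this
  exact this

theorem lower {R Q k h : ℕ} (hk : 2 ≤ k) (hh : 2 ^ R = 4 * h) (hpos : 0 < h)
    {c : Dy R × Dy R → Fin Q} (hc : ¬ Bad k c)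
    (hc2 : 3 * (2 ^ R) ^ 2 ≤ 4 * Nat.card {p : Fin (2 ^ R) × Fin (2 ^ R) // One c p.1 p.2}) :
    h ^ h ≤ (Av h 0 (grid k)).ncard * 16 ^ h := by
  classical
  obtain ⟨ρ, hρ, hd⟩ := exists_rows hh hpos hc2
  have h1 := greedy (α := Fin (2 ^ R)) h h (fun i => univ.filter (fun y => One c (ρ i) y)) (by
    intro i
    have := hd i
    rw [Nat.card_eq_fintype_card, Fintype.card_subtype] at this
    have := i.isLt
    omega)
  have h2 := card_G_le hk hc hρ
  have h3 : Nat.card {g : Fin h → Fin (2 ^ R) // Function.Injective g ∧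
      ∀ i, g i ∈ univ.filter (fun y => One c (ρ i) y)} =
      Nat.card {g : Fin h → Fin (2 ^ R) // Function.Injective g ∧ ∀ i, One c (ρ i) (g i)} := by
    congr 1
    simp
  rw [h3] at h1
  have h4 : 2 ^ (2 ^ R) = 16 ^ h := by
    rw [hh, pow_mul]; norm_num
  rw [h4] at h2
  exact h1.trans h2

end Pool.Agent.R552.DPat
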