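import Mathlib

/-!
# Uniform distant patterns: definitions
-/

set_option autoImplicit false

namespace Pool.Agent.R552.DPat

/-- `π ∈ S_n` contains the uniform distant pattern `dist_r(q)`, `q ∈ S_m`: there are positions
`i 0, i 1, …, i (m - 1)` with `i (j + 1) - i j ≥ r + 1` for all `j`, whose entries of `π` are in the
same relative order as the entries of `q`. -/
def Contains {m n : ℕ} (r : ℕ) (q : Equiv.Perm (Fin m)) (π : Equiv.Perm (Fin n)) : Prop :=
  ∃ i : Fin m → Fin n,
    (∀ j j' : Fin m, j'.val = j.val + 1 → (i j).val + (r + 1) ≤ (i j').val) ∧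
    ∀ j j' : Fin m, π (i j) < π (i j') ↔ q j < q j'

/-- `Av_n(dist_r(q))`: the permutations in `S_n` which avoid `dist_r(q)`. -/
def Av (n r : ℕ) {m : ℕ} (q : Equiv.Perm (Fin m)) : Set (Equiv.Perm (Fin n)) :=
  {π | ¬ Contains r q π}

end Pool.Agent.R552.DPat
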