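import Mathlib

set_option autoImplicit false
set_option maxHeartbeats 400000

namespace Pool.Agent.R552.DPat

open Finset

section count

variable {ι : Type} [Fintype ι] [DecidableEq ι]

theorem card_nonzero (Q : ℕ) (hQ : 0 < Q) :
    ((univ : Finset (Fin Q)).filter (fun v => v.val ≠ 0)).card = Q - 1 := by
  have h1 : (univ : Finset (Fin Q)).filter (fun v => v.val ≠ 0) = univ.erase ⟨0, hQ⟩ := by
    ext v
    simp only [mem_filter, mem_univ, true_and, mem_erase, and_true]
    constructor
    · intro h h2; rw [h2] at h; exact h rfl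
    · intro h h2; exact h (Fin.ext h2)
  rw [h1, card_erase_of_mem (mem_univ _), card_univ, Fintype.card_fin]

/-- colourings which do not vanish on `S` -/
theorem count_nonzero (Q : ℕ) (hQ : 0 < Q) (S : Finset ι) :
    ((univ : Finset (ι → Fin Q)).filter (fun c => ∀ z ∈ S, (c z).val ≠ 0)).card * Q ^ S.card =
      (Q - 1) ^ S.card * Q ^ Fintype.card ι := by
  have h1 : (univ : Finset (ι → Fin Q)).filter (fun c => ∀ z ∈ S, (c z).val ≠ 0) =
      Fintype.piFinset (fun z => if z ∈ S then (univ : Finset (Fin Q)).filter (fun v => v.val ≠ 0)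
        else univ) := by
    ext c
    simp only [mem_filter, mem_univ, true_and, Fintype.mem_piFinset]
    constructor
    · intro h z
      by_cases hz : z ∈ S
      · rw [if_pos hz]; simpa using h z hz
      · rw [if_neg hz]; exact mem_univ _
    · intro h z hz
      have := h z
      rw [if_pos hz] at this
      simpa using this
  rw [h1, Fintype.card_piFinset]
  have h2 : ∏ z, (if z ∈ S then (univ : Finset (Fin Q)).filter (fun v => v.val ≠ 0)
      else (univ : Finset (Fin Q))).card = (Q - 1) ^ S.card * Q ^ (Fintype.card ι - S.card) := by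
    have : ∀ z, (if z ∈ S then (univ : Finset (Fin Q)).filter (fun v => v.val ≠ 0)
      else (univ : Finset (Fin Q))).card = if z ∈ S then Q - 1 else Q := by
      intro z
      split_ifs
      · exact card_nonzero Q hQ
      · simp
    simp_rw [this]
    rw [Finset.prod_ite, prod_const, prod_const]
    have e1 : (univ.filter (fun z => z ∈ S)) = S := by ext; simp
    have e2 : (univ.filter (fun z => z ∉ S)) = Sᶜ := by ext; simp
    rw [e1, e2, card_compl]
  rw [h2, mul_assoc, ← pow_add, Nat.sub_add_cancel (card_le_univ S)]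

theorem count_zero (Q : ℕ) (hQ : 0 < Q) (z : ι) :
    ((univ : Finset (ι → Fin Q)).filter (fun c => (c z).val = 0)).card * Q =
      Q ^ Fintype.card ι := by
  have h1 := count_nonzero Q hQ ({z} : Finset ι)
  simp only [mem_singleton, forall_eq, card_singleton, pow_one] at h1
  have h2 := card_filter_add_card_filter_not (s := (univ : Finset (ι → Fin Q)))
    (fun c => (c z).val = 0)
  rw [card_univ, Fintype.card_pi, prod_const, card_univ, Fintype.card_fin] at h2
  have h3 : Q * Q ^ Fintype.card ι = (Q - 1) * Q ^ Fintype.card ι + Q ^ Fintype.card ι := by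
    obtain ⟨Q', rfl⟩ : ∃ Q', Q = Q' + 1 := ⟨Q - 1, by omega⟩
    simp only [Nat.add_sub_cancel]
    ring
  have h4 : (((univ : Finset (ι → Fin Q)).filter (fun c => (c z).val = 0)).card +
    ((univ : Finset (ι → Fin Q)).filter (fun c => ¬ (c z).val = 0)).card) * Q =
      Q ^ Fintype.card ι * Q := by rw [h2]
  rw [add_mul] at h4
  have h5 : ((univ : Finset (ι → Fin Q)).filter (fun c => ¬ (c z).val = 0)).card * Q =
    (Q - 1) * Q ^ Fintype.card ι := h1
  rw [h5, mul_comm _ Q, mul_comm _ Q, h3] at h4
  rw [mul_comm]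
  omega

end count

/-- dyadic intervals (level, number) -/
abbrev Dy (R : ℕ) := Fin (R + 1) × Fin (2 ^ R)

/-- the dyadic interval of level `j` which contains `x` -/
def dy {R : ℕ} (j : Fin (R + 1)) (x : Fin (2 ^ R)) : Dy R :=
  (j, ⟨x.val / 2 ^ j.val, lt_of_le_of_lt (Nat.div_le_self _ _) x.isLt⟩)

/-- the entry `(x, y)` is a one: no dyadic rectangle which contains it has colour zero -/
def One {R Q : ℕ} (c : Dy R × Dy R → Fin Q) (x y : Fin (2 ^ R)) : Prop :=
  ∀ j j' : Fin (R + 1), (c (dy j x, dy j' y)).val ≠ 0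

/-- there is a large grid of rectangles without colour zero -/
def Bad {R Q : ℕ} (k : ℕ) (c : Dy R × Dy R → Fin Q) : Prop :=
  ∃ D E : Fin k → Dy R, Function.Injective D ∧ Function.Injective E ∧
    ∀ a b, (c (D a, E b)).val ≠ 0

theorem exists_coloring (R Q k : ℕ) (hQ : Q = 8 * (R + 1) ^ 2)
    (hk : 2 * ((R + 1) * 2 ^ R) ^ (2 * k) * (Q - 1) ^ (k * k) ≤ Q ^ (k * k)) :
    ∃ c : Dy R × Dy R → Fin Q, ¬ Bad k c ∧
      3 * (2 ^ R) ^ 2 ≤ 4 * Nat.card {p : Fin (2 ^ R) × Fin (2 ^ R) // One c p.1 p.2} := by
  classical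
  by_contra hcon
  push Not at hcon
  have hQ0 : 0 < Q := by rw [hQ]; positivity
  set ι := Dy R × Dy R with hι
  set X := Q ^ Fintype.card ι with hX
  have hX0 : 0 < X := by positivity
  have hcardX : (univ : Finset (ι → Fin Q)).card = X := by
    rw [card_univ, Fintype.card_pi, prod_const, card_univ, Fintype.card_fin]
  -- zeros
  let Z : (ι → Fin Q) → ℕ := fun c =>
    ((univ : Finset (Fin (2 ^ R) × Fin (2 ^ R))).filter (fun p => ¬ One c p.1 p.2)).card
  have hZ : ∀ c, ¬ Bad k c → (2 ^ R) ^ 2 + 1 ≤ 4 * Z c := by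
    intro c hc
    have h1 := hcon c hc
    rw [Nat.card_eq_fintype_card, Fintype.card_subtype] at h1
    have h2 := card_filter_add_card_filter_not (s := (univ : Finset (Fin (2 ^ R) × Fin (2 ^ R))))
      (fun p => One c p.1 p.2)
    rw [card_univ, Fintype.card_prod, Fintype.card_fin] at h2
    have h3 : 2 ^ R * 2 ^ R = (2 ^ R) ^ 2 := by ring
    simp only [Z]
    omega
  -- upper bound for the sum of zeros
  have hsum : (∑ c : ι → Fin Q, Z c) * Q ≤ (2 ^ R) ^ 2 * (R + 1) ^ 2 * X := by
    have h1 : ∀ c : ι → Fin Q, Z c ≤ ∑ p : Fin (2 ^ R) × Fin (2 ^ R), ∑ j : Fin (R + 1) × Fin (R + 1),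
        if (c (dy j.1 p.1, dy j.2 p.2)).val = 0 then 1 else 0 := by
      intro c
      simp only [Z]
      rw [card_filter]
      apply Finset.sum_le_sum
      intro p _
      by_cases hp : One c p.1 p.2
      · rw [if_neg (not_not.2 hp)]; exact Nat.zero_le _
      · rw [if_pos hp]
        simp only [One, not_forall, not_not] at hp
        obtain ⟨j, j', hj⟩ := hp
        have : (if (c (dy j p.1, dy j' p.2)).val = 0 then 1 else 0) ≤
          ∑ j : Fin (R + 1) × Fin (R + 1), if (c (dy j.1 p.1, dy j.2 p.2)).val = 0 then 1 else 0 :=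
          Finset.single_le_sum (f := fun j : Fin (R + 1) × Fin (R + 1) =>
            if (c (dy j.1 p.1, dy j.2 p.2)).val = 0 then 1 else 0) (fun _ _ => Nat.zero_le _)
            (mem_univ (j, j'))
        rw [if_pos hj] at this
        exact this
    have h2 : ∑ c : ι → Fin Q, Z c ≤ ∑ p : Fin (2 ^ R) × Fin (2 ^ R), ∑ j : Fin (R + 1) × Fin (R + 1),
        ((univ : Finset (ι → Fin Q)).filter (fun c => (c (dy j.1 p.1, dy j.2 p.2)).val = 0)).card := by
      calc ∑ c : ι → Fin Q, Z c ≤ ∑ c : ι → Fin Q, ∑ p : Fin (2 ^ R) × Fin (2 ^ R),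
            ∑ j : Fin (R + 1) × Fin (R + 1),
              (if (c (dy j.1 p.1, dy j.2 p.2)).val = 0 then 1 else 0) :=
            Finset.sum_le_sum fun c _ => h1 c
        _ = _ := by
          rw [Finset.sum_comm]
          apply Finset.sum_congr rfl
          intro p _
          rw [Finset.sum_comm]
          apply Finset.sum_congr rfl
          intro j _
          rw [card_filter]
    calc (∑ c : ι → Fin Q, Z c) * Q ≤ (∑ p : Fin (2 ^ R) × Fin (2 ^ R), ∑ j : Fin (R + 1) × Fin (R + 1),
        ((univ : Finset (ι → Fin Q)).filter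
          (fun c => (c (dy j.1 p.1, dy j.2 p.2)).val = 0)).card) * Q := Nat.mul_le_mul_right _ h2
      _ = ∑ p : Fin (2 ^ R) × Fin (2 ^ R), ∑ j : Fin (R + 1) × Fin (R + 1), X := by
          rw [Finset.sum_mul]
          apply Finset.sum_congr rfl
          intro p _
          rw [Finset.sum_mul]
          apply Finset.sum_congr rfl
          intro j _
          exact count_zero Q hQ0 _
      _ = (2 ^ R) ^ 2 * (R + 1) ^ 2 * X := by
          simp only [sum_const, card_univ, Fintype.card_prod, Fintype.card_fin, smul_eq_mul]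
          ring
  -- the bad colourings
  have hbad : 2 * ((univ : Finset (ι → Fin Q)).filter (fun c => Bad k c)).card ≤ X := by
    have h1 : (univ : Finset (ι → Fin Q)).filter (fun c => Bad k c) ⊆
        ((univ : Finset ((Fin k → Dy R) × (Fin k → Dy R))).filter (fun p =>
          Function.Injective p.1 ∧ Function.Injective p.2)).biUnion
          (fun p => (univ : Finset (ι → Fin Q)).filter (fun c => ∀ a b, (c (p.1 a, p.2 b)).val ≠ 0)) := by
      intro c hc
      simp only [mem_filter, mem_univ, true_and] at hc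
      obtain ⟨D, E, hD, hE, h⟩ := hc
      simp only [mem_biUnion, mem_filter, mem_univ, true_and]
      exact ⟨(D, E), ⟨hD, hE⟩, h⟩
    have h2 : ∀ p : (Fin k → Dy R) × (Fin k → Dy R), Function.Injective p.1 →
        Function.Injective p.2 → ((univ : Finset (ι → Fin Q)).filter
          (fun c => ∀ a b, (c (p.1 a, p.2 b)).val ≠ 0)).card * Q ^ (k * k) =
            (Q - 1) ^ (k * k) * X := by
      intro p hD hE
      set S : Finset ι := (univ : Finset (Fin k × Fin k)).image (fun q => (p.1 q.1, p.2 q.2)) with hS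
      have hSc : S.card = k * k := by
        rw [hS, card_image_of_injective, card_univ, Fintype.card_prod, Fintype.card_fin]
        rintro ⟨a, b⟩ ⟨a', b'⟩ hab
        have e1 := hD (congrArg Prod.fst hab)
        have e2 := hE (congrArg Prod.snd hab)
        simp only at e1 e2
        rw [e1, e2]
      have := count_nonzero Q hQ0 S
      rw [hSc] at this
      rw [← this]
      congr 2
      ext c
      simp only [mem_filter, mem_univ, true_and]
      constructor
      · intro h z hz
        obtain ⟨⟨a, b⟩, -, rfl⟩ := mem_image.1 hz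
        exact h a b
      · intro h a b
        exact h _ (mem_image.2 ⟨(a, b), mem_univ _, rfl⟩)
    have h3 : ((univ : Finset (ι → Fin Q)).filter (fun c => Bad k c)).card * Q ^ (k * k) ≤
        ((R + 1) * 2 ^ R) ^ (2 * k) * ((Q - 1) ^ (k * k) * X) := by
      calc _ ≤ (∑ p ∈ (univ : Finset ((Fin k → Dy R) × (Fin k → Dy R))).filter (fun p =>
            Function.Injective p.1 ∧ Function.Injective p.2),
              ((univ : Finset (ι → Fin Q)).filter
                (fun c => ∀ a b, (c (p.1 a, p.2 b)).val ≠ 0)).card) * Q ^ (k * k) :=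
            Nat.mul_le_mul_right _ ((card_le_card h1).trans card_biUnion_le)
        _ = ∑ p ∈ (univ : Finset ((Fin k → Dy R) × (Fin k → Dy R))).filter (fun p =>
            Function.Injective p.1 ∧ Function.Injective p.2), (Q - 1) ^ (k * k) * X := by
            rw [Finset.sum_mul]
            apply Finset.sum_congr rfl
            intro p hp
            simp only [mem_filter, mem_univ, true_and] at hp
            exact h2 p hp.1 hp.2
        _ ≤ ∑ _p : (Fin k → Dy R) × (Fin k → Dy R), (Q - 1) ^ (k * k) * X :=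
            Finset.sum_le_sum_of_subset (Finset.filter_subset _ _)
        _ = _ := by
            simp only [sum_const, card_univ, Fintype.card_prod, Fintype.card_pi, prod_const,
              Fintype.card_fin, smul_eq_mul]
            congr 1
            ring
    have hQk : 0 < Q ^ (k * k) := by positivity
    have h4 : (2 * ((univ : Finset (ι → Fin Q)).filter (fun c => Bad k c)).card) * Q ^ (k * k) ≤
        X * Q ^ (k * k) := by
      calc _ = 2 * (((univ : Finset (ι → Fin Q)).filter (fun c => Bad k c)).card * Q ^ (k * k)) := by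
            ring
        _ ≤ 2 * (((R + 1) * 2 ^ R) ^ (2 * k) * ((Q - 1) ^ (k * k) * X)) := Nat.mul_le_mul_left _ h3
        _ = (2 * ((R + 1) * 2 ^ R) ^ (2 * k) * (Q - 1) ^ (k * k)) * X := by ring
        _ ≤ Q ^ (k * k) * X := Nat.mul_le_mul_right _ hk
        _ = _ := by ring
    exact Nat.le_of_mul_le_mul_right h4 hQk
  -- lower bound for the sum of zeros
  have hlow : ((2 ^ R) ^ 2 + 1) * ((univ : Finset (ι → Fin Q)).filter (fun c => ¬ Bad k c)).card ≤
      4 * ∑ c : ι → Fin Q, Z c := by
    calc _ = ∑ c ∈ (univ : Finset (ι → Fin Q)).filter (fun c => ¬ Bad k c), ((2 ^ R) ^ 2 + 1) := by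
          rw [sum_const, smul_eq_mul, mul_comm]
      _ ≤ ∑ c ∈ (univ : Finset (ι → Fin Q)).filter (fun c => ¬ Bad k c), 4 * Z c := by
          apply Finset.sum_le_sum
          intro c hc
          simp only [mem_filter, mem_univ, true_and] at hc
          exact hZ c hc
      _ ≤ ∑ c : ι → Fin Q, 4 * Z c := Finset.sum_le_sum_of_subset (Finset.filter_subset _ _)
      _ = _ := by rw [Finset.mul_sum]
  have hsplit := card_filter_add_card_filter_not (s := (univ : Finset (ι → Fin Q)))
    (fun c => Bad k c)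
  rw [hcardX] at hsplit
  set B := ((univ : Finset (ι → Fin Q)).filter (fun c => Bad k c)).card with hB
  set G := ((univ : Finset (ι → Fin Q)).filter (fun c => ¬ Bad k c)).card with hG
  set W := ∑ c : ι → Fin Q, Z c with hW
  -- `8 (R+1)^2 W ≤ N^2 (R+1)^2 X`
  have hR : 0 < (R + 1) ^ 2 := by positivity
  have h8 : 8 * W ≤ (2 ^ R) ^ 2 * X := by
    rw [hQ] at hsum
    have : (8 * W) * (R + 1) ^ 2 ≤ ((2 ^ R) ^ 2 * X) * (R + 1) ^ 2 := by nlinarith
    exact Nat.le_of_mul_le_mul_right this hR
  have hG2 : X ≤ 2 * G := by omega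
  have h9 : ((2 ^ R) ^ 2 + 1) * X ≤ (2 ^ R) ^ 2 * X := by
    calc ((2 ^ R) ^ 2 + 1) * X ≤ ((2 ^ R) ^ 2 + 1) * (2 * G) := Nat.mul_le_mul_left _ hG2
      _ = 2 * (((2 ^ R) ^ 2 + 1) * G) := by ring
      _ ≤ 2 * (4 * W) := Nat.mul_le_mul_left _ hlow
      _ = 8 * W := by ring
      _ ≤ _ := h8
  nlinarith

end Pool.Agent.R552.DPat
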