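import Pool.Agent.R552.DPat.Skew
import Pool.Agent.R552.DPat.Rand

set_option autoImplicit false
set_option maxHeartbeats 400000

namespace Pool.Agent.R552.DPat

open Finset

/-- the transposed grid -/
def grid (k : ℕ) : Equiv.Perm (Fin (k * k)) :=
  finProdFinEquiv.symm.trans ((Equiv.prodComm _ _).trans finProdFinEquiv)

theorem grid_apply (k : ℕ) (a b : Fin k) :
    grid k (finProdFinEquiv (a, b)) = finProdFinEquiv (b, a) := by
  simp [grid]

theorem ex_lev (u v : ℕ) : ∃ l : ℕ, u / 2 ^ l = v / 2 ^ l := by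
  refine ⟨u + v, ?_⟩
  have h1 : u < 2 ^ (u + v) :=
    lt_of_lt_of_le Nat.lt_two_pow_self (Nat.pow_le_pow_right (by norm_num) (by omega))
  have h2 : v < 2 ^ (u + v) :=
    lt_of_lt_of_le Nat.lt_two_pow_self (Nat.pow_le_pow_right (by norm_num) (by omega))
  rw [Nat.div_eq_of_lt h1, Nat.div_eq_of_lt h2]

/-- the least level at which `u` and `v` lie in the same dyadic interval -/
def lev (u v : ℕ) : ℕ := Nat.find (ex_lev u v)

theorem lev_spec (u v : ℕ) : u / 2 ^ lev u v = v / 2 ^ lev u v := Nat.find_spec (ex_lev u v)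

theorem lev_min {u v l : ℕ} (h : l < lev u v) : u / 2 ^ l ≠ v / 2 ^ l := Nat.find_min (ex_lev u v) h

theorem lev_le {u v R : ℕ} (hu : u < 2 ^ R) (hv : v < 2 ^ R) : lev u v ≤ R :=
  Nat.find_min' (ex_lev u v) (by rw [Nat.div_eq_of_lt hu, Nat.div_eq_of_lt hv])

theorem lev_mid {u w v : ℕ} (h1 : u ≤ w) (h2 : w ≤ v) : w / 2 ^ lev u v = u / 2 ^ lev u v := by
  have a := Nat.div_le_div_right (c := 2 ^ lev u v) h1
  have b := Nat.div_le_div_right (c := 2 ^ lev u v) h2
  rw [← lev_spec u v] at b
  omega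

theorem lev_distinct {u v u' v' : ℕ} (h1 : u < v) (h2 : v < u') (h3 : u' < v')
    (h : lev u v = lev u' v') : u / 2 ^ lev u v ≠ u' / 2 ^ lev u' v' := by
  intro he
  have s1 := lev_spec u v
  have s2 := lev_spec u' v'
  have hpos : lev u v ≠ 0 := by
    intro h0
    rw [h0] at s1
    simp at s1
    omega
  obtain ⟨l, hl⟩ : ∃ l, lev u v = l + 1 := ⟨lev u v - 1, by omega⟩
  have hl' : lev u' v' = l + 1 := by rw [← h]; exact hl
  have m1 := lev_min (u := u) (v := v) (l := l) (by omega)
  have m2 := lev_min (u := u') (v := v') (l := l) (by omega)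
  rw [hl] at s1 he
  rw [hl'] at s2 he
  have e : ∀ w : ℕ, w / 2 ^ (l + 1) = (w / 2 ^ l) / 2 := by
    intro w; rw [pow_succ, Nat.div_div_eq_div_mul]
  rw [e, e] at s1 s2 he
  have g1 := Nat.div_le_div_right (c := 2 ^ l) h1.le
  have g2 := Nat.div_le_div_right (c := 2 ^ l) h2.le
  have g3 := Nat.div_le_div_right (c := 2 ^ l) h3.le
  generalize u / 2 ^ l = p at *
  generalize v / 2 ^ l = q at *
  generalize u' / 2 ^ l = p' at *
  generalize v' / 2 ^ l = q' at *
  omega

/-- the dyadic intervals of a sequence of separated intervals are distinct -/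
theorem exists_dyadic {R k : ℕ} (l r : Fin k → Fin (2 ^ R)) (hlr : ∀ a, (l a).val < (r a).val)
    (hsep : ∀ a a', a < a' → (r a).val < (l a').val) :
    ∃ (j : Fin k → Fin (R + 1)) (D : Fin k → Dy R), Function.Injective D ∧
      ∀ a (x : Fin (2 ^ R)), (l a).val ≤ x.val → x.val ≤ (r a).val → dy (j a) x = D a := by
  let j : Fin k → Fin (R + 1) := fun a =>
    ⟨lev (l a).val (r a).val, Nat.lt_succ_of_le (lev_le (l a).isLt (r a).isLt)⟩
  refine ⟨j, fun a => dy (j a) (l a), ?_, ?_⟩
  · have key : ∀ a a', a < a' → dy (j a) (l a) ≠ dy (j a') (l a') := by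
      intro a a' h he
      have e1 := congrArg (fun z : Dy R => z.1.val) he
      have e2 := congrArg (fun z : Dy R => z.2.val) he
      simp only [dy, j] at e1 e2
      exact lev_distinct (hlr a) (hsep a a' h) (hlr a') e1 e2
    intro a a' he
    by_contra hne
    rcases lt_or_gt_of_ne hne with h | h
    · exact key a a' h he
    · exact key a' a h he.symm
  · intro a x h1 h2
    have := lev_mid h1 h2
    simp only [dy, j, Prod.mk.injEq, true_and]
    exact Fin.ext this

theorem grid_avoided {R Q k h : ℕ} (hk : 2 ≤ k) {c : Dy R × Dy R → Fin Q} (hc : ¬ Bad k c)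
    {ρ : Fin h → Fin (2 ^ R)} (hρ : StrictMono ρ) {g : Fin h → Fin (2 ^ R)}
    (hg : ∀ i, One c (ρ i) (g i)) {τ : Equiv.Perm (Fin h)} (hτ : ∀ i j, τ i < τ j ↔ g i < g j) :
    ¬ Contains 0 (grid k) τ := by
  rintro ⟨i, hi, hq⟩
  apply hc
  have hmono : StrictMono i := strictMono_of_gap hi
  have hk0 : 0 < k := by omega
  let f : Fin k := ⟨0, hk0⟩
  let l : Fin k := ⟨k - 1, by omega⟩
  have hfl : f.val < l.val := by simp only [f, l]; omega
  let pt : Fin k → Fin k → Fin h := fun a b => i (finProdFinEquiv (a, b))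
  have hlex : ∀ a b a' b' : Fin k, (a < a' ∨ (a = a' ∧ b < b')) →
      (finProdFinEquiv (a, b) : Fin (k * k)) < finProdFinEquiv (a', b') := by
    intro a b a' b' hh
    rw [Fin.lt_def, finProdFinEquiv_apply_val, finProdFinEquiv_apply_val]
    simp only
    rcases hh with hh | ⟨rfl, hh⟩
    · have h1 : a.val + 1 ≤ a'.val := hh
      have h2 := b.isLt
      calc b.val + k * a.val < k + k * a.val := by omega
        _ = k * (a.val + 1) := by ring
        _ ≤ k * a'.val := Nat.mul_le_mul_left _ h1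
        _ ≤ b'.val + k * a'.val := by omega
    · have : b.val < b'.val := hh
      omega
  have hX : ∀ a b a' b' : Fin k, (a < a' ∨ (a = a' ∧ b < b')) →
      (ρ (pt a b)).val < (ρ (pt a' b')).val := by
    intro a b a' b' hh
    exact hρ (hmono (hlex a b a' b' hh))
  have hY : ∀ a b a' b' : Fin k, (b < b' ∨ (b = b' ∧ a < a')) →
      (g (pt a b)).val < (g (pt a' b')).val := by
    intro a b a' b' hh
    have : g (pt a b) < g (pt a' b') := by
      rw [← hτ, hq, grid_apply, grid_apply]
      exact hlex b a b' a' hh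
    exact this
  have hle : ∀ b : Fin k, b = l ∨ b < l := by
    intro b
    by_cases hb : b = l
    · exact Or.inl hb
    · right; rw [Fin.lt_def]
      have : b.val ≠ l.val := fun h => hb (Fin.ext h)
      have := b.isLt
      simp only [l] at *
      omega
  have hge : ∀ b : Fin k, b = f ∨ f < b := by
    intro b
    by_cases hb : b = f
    · exact Or.inl hb
    · right; rw [Fin.lt_def]
      have : b.val ≠ f.val := fun h => hb (Fin.ext h)
      simp only [f] at *
      omega
  obtain ⟨j, D, hD, hD2⟩ := exists_dyadic (R := R) (fun a => ρ (pt a f)) (fun a => ρ (pt a l))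
    (fun a => hX a f a l (Or.inr ⟨rfl, hfl⟩)) (fun a a' haa => hX a l a' f (Or.inl haa))
  obtain ⟨j', E, hE, hE2⟩ := exists_dyadic (R := R) (fun b => g (pt f b)) (fun b => g (pt l b))
    (fun b => hY f b l b (Or.inr ⟨rfl, hfl⟩)) (fun b b' hbb => hY l b f b' (Or.inl hbb))
  refine ⟨D, E, hD, hE, ?_⟩
  intro a b
  have h1 : dy (j a) (ρ (pt a b)) = D a := by
    apply hD2
    · rcases hge b with rfl | hb
      · exact le_rfl
      · exact (hX a f a b (Or.inr ⟨rfl, hb⟩)).le
    · rcases hle b with rfl | hb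
      · exact le_rfl
      · exact (hX a b a l (Or.inr ⟨rfl, hb⟩)).le
  have h2 : dy (j' b) (g (pt a b)) = E b := by
    apply hE2
    · rcases hge a with rfl | ha
      · exact le_rfl
      · exact (hY f b a b (Or.inr ⟨rfl, ha⟩)).le
    · rcases hle a with rfl | ha
      · exact le_rfl
      · exact (hY a b l b (Or.inr ⟨rfl, ha⟩)).le
  rw [← h1, ← h2]
  exact hg (pt a b) (j a) (j' b)

end Pool.Agent.R552.DPat
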