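import Pool.Agent.R552.DPat.Count

set_option autoImplicit false
set_option maxHeartbeats 400000

namespace Pool.Agent.R552.DPat

open Finset Filter Topology

theorem bern (p n : ℕ) : p ^ (n + 1) + (n + 1) * p ^ n ≤ (p + 1) ^ (n + 1) := by
  induction n with
  | zero => simp
  | succ n ih =>
    have h1 : (p + 1) ^ (n + 1 + 1) = (p + 1) * (p + 1) ^ (n + 1) := by ring
    have h2 : (p + 1) * (p ^ (n + 1) + (n + 1) * p ^ n) =
      p ^ (n + 1 + 1) + (n + 1 + 1) * p ^ (n + 1) + (n + 1) * p ^ n := by ring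
    rw [h1]
    calc _ ≤ p ^ (n + 1 + 1) + (n + 1 + 1) * p ^ (n + 1) + (n + 1) * p ^ n := Nat.le_add_right _ _
      _ = (p + 1) * (p ^ (n + 1) + (n + 1) * p ^ n) := h2.symm
      _ ≤ _ := Nat.mul_le_mul_left _ ih

theorem two_mul_le {Q : ℕ} (hQ : 0 < Q) : 2 * (Q - 1) ^ Q ≤ Q ^ Q := by
  obtain ⟨p, rfl⟩ : ∃ p, Q = p + 1 := ⟨Q - 1, by omega⟩
  have h1 := bern p p
  simp only [Nat.add_sub_cancel]
  have h2 : p ^ (p + 1) ≤ (p + 1) * p ^ p := by
    rw [pow_succ, mul_comm]; exact Nat.mul_le_mul_right _ (by omega)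
  omega

theorem param {R Q k : ℕ} (hQ : Q = 8 * (R + 1) ^ 2) (hk : k = Q * (4 * R + 1)) :
    2 * ((R + 1) * 2 ^ R) ^ (2 * k) * (Q - 1) ^ (k * k) ≤ Q ^ (k * k) := by
  have hQ0 : 0 < Q := by rw [hQ]; positivity
  have hk0 : 0 < k := by rw [hk]; positivity
  set s := (4 * R + 1) * k with hs
  have hkk : k * k = Q * s := by rw [hs]; nth_rewrite 1 [hk]; ring
  have h1 : 2 ^ s * (Q - 1) ^ (k * k) ≤ Q ^ (k * k) := by
    rw [hkk, pow_mul (Q - 1), pow_mul Q, ← mul_pow]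
    exact Nat.pow_le_pow_left (two_mul_le hQ0) s
  have h2 : 2 * ((R + 1) * 2 ^ R) ^ (2 * k) ≤ 2 ^ s := by
    have h3 : R + 1 ≤ 2 ^ R := Nat.lt_two_pow_self
    calc 2 * ((R + 1) * 2 ^ R) ^ (2 * k) ≤ 2 * (2 ^ R * 2 ^ R) ^ (2 * k) := by gcongr
      _ = 2 ^ (4 * R * k + 1) := by
          rw [← pow_add, ← pow_mul, pow_succ, mul_comm]
          congr 2
          ring
      _ ≤ 2 ^ s := by
          apply Nat.pow_le_pow_right (by norm_num)
          rw [hs]; nlinarith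
  calc _ ≤ 2 ^ s * (Q - 1) ^ (k * k) := Nat.mul_le_mul_right _ h2
    _ ≤ _ := h1

theorem exists_R (C : ℕ) : ∃ R : ℕ, 6 ≤ R ∧ C * (R + 1) ^ 12 ≤ 2 ^ R := by
  have h1 := tendsto_pow_const_div_const_pow_of_one_lt 12 (by norm_num : (1:ℝ) < 2)
  have hpos : (0:ℝ) < 1 / (2 * C + 1) := by positivity
  have h2 := (h1.eventually (gt_mem_nhds hpos)).and (eventually_ge_atTop 7)
  obtain ⟨n, hn, hn7⟩ := h2.exists
  refine ⟨n - 1, by omega, ?_⟩
  have h3 : n - 1 + 1 = n := by omega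
  rw [h3]
  have h4 : (n:ℝ) ^ 12 * (2 * C + 1) < 2 ^ n := by
    rw [div_lt_div_iff₀ (by positivity) (by positivity)] at hn
    linarith
  have h5 : n ^ 12 * (2 * C + 1) < 2 ^ n := by exact_mod_cast h4
  have h6 : 2 ^ n = 2 * 2 ^ (n - 1) := by rw [← pow_succ']; congr 1; omega
  have h7 : 2 * (C * n ^ 12) ≤ 2 * 2 ^ (n - 1) := by
    rw [← h6]
    nlinarith [Nat.zero_le (n ^ 12)]
  omega

theorem grid_zero {k : ℕ} (hk : 0 < k * k) : grid k ⟨0, hk⟩ = ⟨0, hk⟩ := by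
  have hk0 : 0 < k := by
    rcases Nat.eq_zero_or_pos k with h | h
    · rw [h] at hk; simp at hk
    · exact h
  have h1 : (⟨0, hk⟩ : Fin (k * k)) = finProdFinEquiv (⟨0, hk0⟩, ⟨0, hk0⟩) := by
    apply Fin.ext; simp
  rw [h1, grid_apply]

/-- for every `r` there is a pattern which is easier to avoid than the increasing one -/
theorem main (r : ℕ) : ∃ m : ℕ, 3 ≤ m ∧ ∃ q : Equiv.Perm (Fin m), ∃ n₀ : ℕ, ∀ n ≥ n₀,
    (Av n r (1 : Equiv.Perm (Fin m))).ncard < (Av n r q).ncard := by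
  obtain ⟨R, hR6, hR⟩ := exists_R (2 ^ 27 * (r + 1) ^ 2)
  set Q := 8 * (R + 1) ^ 2 with hQ
  set k := Q * (4 * R + 1) with hk
  have hk2 : 2 ≤ k := by
    rw [hk, hQ]; nlinarith [Nat.zero_le (R ^ 2), Nat.zero_le (R ^ 3)]
  have hk32 : k ≤ 32 * (R + 1) ^ 3 := by
    rw [hk, hQ]
    calc 8 * (R + 1) ^ 2 * (4 * R + 1) ≤ 8 * (R + 1) ^ 2 * (4 * (R + 1)) :=
          Nat.mul_le_mul_left _ (by omega)
      _ = _ := by ring
  obtain ⟨c, hc, hc2⟩ := exists_coloring R Q k hQ (param hQ hk)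
  set h := 2 ^ (R - 2) with hh
  have hh4 : 2 ^ R = 4 * h := by
    rw [hh]
    have : R = (R - 2) + 2 := by omega
    nth_rewrite 1 [this]
    rw [pow_add]; ring
  have hpos : 0 < h := by positivity
  have hlow := lower hk2 hh4 hpos hc hc2
  set B := 2 ^ (R - 6) with hB
  have hhB : h = 16 * B := by
    rw [hh, hB]
    have : R - 2 = (R - 6) + 4 := by omega
    rw [this, pow_add]; ring
  have hm4 : 4 ≤ k * k := by nlinarith
  have hAv : B ^ h ≤ (Av h 0 (grid k)).ncard := by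
    have h1 : h ^ h = B ^ h * 16 ^ h := by
      nth_rewrite 1 [hhB]
      rw [mul_pow]; ring
    rw [h1] at hlow
    exact Nat.le_of_mul_le_mul_right hlow (by positivity)
  set M := (k * k - 1) * (r + 1) + 1 with hM
  have hM1 : M ≤ k * k * (r + 1) := by
    rw [hM]
    obtain ⟨w, hw⟩ : ∃ w, k * k = w + 1 := ⟨k * k - 1, by omega⟩
    rw [hw, Nat.add_sub_cancel]
    nlinarith
  have hM0 : 0 < M := by rw [hM]; omega
  have hBM : 2 * M ^ 2 ≤ B := by
    have h1 : M ≤ (32 * (R + 1) ^ 3) * (32 * (R + 1) ^ 3) * (r + 1) :=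
      hM1.trans (Nat.mul_le_mul_right _ (Nat.mul_le_mul hk32 hk32))
    have h2 : M ^ 2 ≤ ((32 * (R + 1) ^ 3) * (32 * (R + 1) ^ 3) * (r + 1)) ^ 2 :=
      Nat.pow_le_pow_left h1 2
    have h3 : ((32 * (R + 1) ^ 3) * (32 * (R + 1) ^ 3) * (r + 1)) ^ 2 =
      2 ^ 20 * (r + 1) ^ 2 * (R + 1) ^ 12 := by ring
    have h4 : 2 ^ R = 64 * B := by
      rw [hB]
      have : R = (R - 6) + 6 := by omega
      nth_rewrite 1 [this]
      rw [pow_add]; ring
    rw [h4] at hR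
    rw [h3] at h2
    have h5 : 2 ^ 27 * (r + 1) ^ 2 * (R + 1) ^ 12 =
      64 * (2 * (2 ^ 20 * (r + 1) ^ 2 * (R + 1) ^ 12)) := by ring
    rw [h5] at hR
    have h6 := Nat.le_of_mul_le_mul_left hR (by norm_num)
    omega
  refine ⟨k * k, by omega, grid k, h * M ^ 2, ?_⟩
  intro n hn
  have hup := upper (k * k) n r
  have hsub : (Av n 0 (grid k)).ncard ≤ (Av n r (grid k)).ncard := by
    apply Set.ncard_le_ncard _ (Set.toFinite _)
    intro π hπ hcon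
    exact hπ (contains_zero hcon)
  set a := n / h with ha
  set b := n % h with hb
  have hn' : n = a * h + b := by rw [ha, hb, mul_comm]; exact (Nat.div_add_mod n h).symm
  have hbh : b < h := Nat.mod_lt _ hpos
  have haM : M ^ 2 ≤ a := by
    rw [ha, Nat.le_div_iff_mul_le hpos, mul_comm]; exact hn
  have h1 := av_mul (h := h) (by omega : 2 ≤ k * k) (grid_zero (by omega)) a b
  rw [← hn'] at h1
  have h2 : (2 * M ^ 2) ^ (h * a) ≤ (Av n r (grid k)).ncard := by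
    calc (2 * M ^ 2) ^ (h * a) ≤ B ^ (h * a) := Nat.pow_le_pow_left hBM _
      _ = (B ^ h) ^ a := pow_mul _ _ _
      _ ≤ (Av h 0 (grid k)).ncard ^ a := Nat.pow_le_pow_left hAv _
      _ ≤ (Av n 0 (grid k)).ncard := h1
      _ ≤ _ := hsub
  refine lt_of_le_of_lt hup (lt_of_lt_of_le ?_ h2)
  have h3 : M ^ (2 * n) = M ^ (2 * b) * (M ^ 2) ^ (h * a) := by
    rw [← pow_mul, ← pow_add]; congr 1; rw [hn']; ring
  rw [← hM, h3, mul_pow]
  apply Nat.mul_lt_mul_of_pos_right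
  · calc M ^ (2 * b) ≤ M ^ (2 * h) := Nat.pow_le_pow_right hM0 (by omega)
      _ = (M ^ 2) ^ h := by rw [pow_mul]
      _ < (2 ^ a) ^ h := Nat.pow_lt_pow_left (lt_of_le_of_lt haM Nat.lt_two_pow_self) (by omega)
      _ = 2 ^ (h * a) := by rw [← pow_mul, mul_comm]
  · positivity

end Pool.Agent.R552.DPat
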