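import Pool.Agent.R552.DPat.Up

set_option autoImplicit false
set_option maxHeartbeats 400000

namespace Pool.Agent.R552.DPat

open Finset

/-- skew sum -/
def skewFun {a b : ℕ} (τ₁ : Equiv.Perm (Fin a)) (τ₂ : Equiv.Perm (Fin b)) (x : Fin (a + b)) :
    Fin (a + b) :=
  if h : x.val < a then ⟨b + (τ₁ ⟨x.val, h⟩).val, by have := (τ₁ ⟨x.val, h⟩).isLt; omega⟩
  else ⟨(τ₂ ⟨x.val - a, by omega⟩).val, by have := (τ₂ ⟨x.val - a, by omega⟩).isLt; omega⟩

theorem skewFun_left {a b : ℕ} (τ₁ : Equiv.Perm (Fin a)) (τ₂ : Equiv.Perm (Fin b)) {x : Fin (a + b)}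
    (h : x.val < a) : (skewFun τ₁ τ₂ x).val = b + (τ₁ ⟨x.val, h⟩).val := by
  unfold skewFun; rw [dif_pos h]

theorem skewFun_right {a b : ℕ} (τ₁ : Equiv.Perm (Fin a)) (τ₂ : Equiv.Perm (Fin b))
    {x : Fin (a + b)} (h : ¬ x.val < a) :
    (skewFun τ₁ τ₂ x).val = (τ₂ ⟨x.val - a, by omega⟩).val := by
  unfold skewFun; rw [dif_neg h]

theorem skewFun_inj {a b : ℕ} (τ₁ : Equiv.Perm (Fin a)) (τ₂ : Equiv.Perm (Fin b)) :
    Function.Injective (skewFun τ₁ τ₂) := by
  intro x y hxy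
  have hv := congrArg Fin.val hxy
  by_cases hx : x.val < a <;> by_cases hy : y.val < a
  · rw [skewFun_left _ _ hx, skewFun_left _ _ hy] at hv
    have h1 : τ₁ ⟨x.val, hx⟩ = τ₁ ⟨y.val, hy⟩ := Fin.ext (by omega)
    have h2 := congrArg Fin.val (τ₁.injective h1)
    exact Fin.ext h2
  · rw [skewFun_left _ _ hx, skewFun_right _ _ hy] at hv
    have := (τ₂ ⟨y.val - a, by omega⟩).isLt
    omega
  · rw [skewFun_right _ _ hx, skewFun_left _ _ hy] at hv
    have := (τ₂ ⟨x.val - a, by omega⟩).isLt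
    omega
  · rw [skewFun_right _ _ hx, skewFun_right _ _ hy] at hv
    have h1 : τ₂ ⟨x.val - a, by omega⟩ = τ₂ ⟨y.val - a, by omega⟩ := Fin.ext hv
    have h2 := congrArg Fin.val (τ₂.injective h1)
    simp only at h2
    exact Fin.ext (by omega)

noncomputable def skew {a b : ℕ} (τ₁ : Equiv.Perm (Fin a)) (τ₂ : Equiv.Perm (Fin b)) :
    Equiv.Perm (Fin (a + b)) :=
  Equiv.ofBijective (skewFun τ₁ τ₂) ((Finite.injective_iff_bijective).1 (skewFun_inj τ₁ τ₂))

theorem skew_apply {a b : ℕ} (τ₁ : Equiv.Perm (Fin a)) (τ₂ : Equiv.Perm (Fin b)) (x : Fin (a + b)) :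
    skew τ₁ τ₂ x = skewFun τ₁ τ₂ x := rfl

theorem skew_injective {a b : ℕ} {τ₁ τ₁' : Equiv.Perm (Fin a)} {τ₂ τ₂' : Equiv.Perm (Fin b)}
    (h : skew τ₁ τ₂ = skew τ₁' τ₂') : τ₁ = τ₁' ∧ τ₂ = τ₂' := by
  constructor
  · ext x
    have h1 := congrArg Fin.val (congrArg (fun π => π (⟨x.val, by omega⟩ : Fin (a + b))) h)
    simp only [skew_apply] at h1
    rw [skewFun_left _ _ x.isLt, skewFun_left _ _ x.isLt] at h1
    have : (τ₁ x).val = (τ₁' x).val := by simpa using h1
    exact this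
  · ext x
    have h1 := congrArg Fin.val (congrArg (fun π => π (⟨a + x.val, by omega⟩ : Fin (a + b))) h)
    simp only [skew_apply] at h1
    have hn : ¬ (⟨a + x.val, by omega⟩ : Fin (a + b)).val < a := by simp
    rw [skewFun_right _ _ hn, skewFun_right _ _ hn] at h1
    simpa using h1

/-- a pattern whose first entry is the smallest one is skew indecomposable -/
theorem skew_avoids {m a b : ℕ} (hm : 0 < m) {q : Equiv.Perm (Fin m)} (hq : q ⟨0, hm⟩ = ⟨0, hm⟩)
    {τ₁ : Equiv.Perm (Fin a)} {τ₂ : Equiv.Perm (Fin b)} (h₁ : ¬ Contains 0 q τ₁)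
    (h₂ : ¬ Contains 0 q τ₂) : ¬ Contains 0 q (skew τ₁ τ₂) := by
  rintro ⟨i, hi, hq'⟩
  have hmono : StrictMono i := strictMono_of_gap hi
  have hmin : ∀ j : Fin m, j ≠ ⟨0, hm⟩ → skew τ₁ τ₂ (i ⟨0, hm⟩) < skew τ₁ τ₂ (i j) := by
    intro j hj
    rw [hq', hq, Fin.lt_def]
    have : q j ≠ ⟨0, hm⟩ := fun h => hj (q.injective (h.trans hq.symm))
    have h3 : (q j).val ≠ 0 := fun h => this (Fin.ext h)
    simp only
    omega
  have hpos : ∀ j : Fin m, j ≠ ⟨0, hm⟩ → i ⟨0, hm⟩ < i j := by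
    intro j hj
    apply hmono
    rw [Fin.lt_def]
    have : j.val ≠ 0 := fun h => hj (Fin.ext h)
    simp only
    omega
  by_cases h0 : (i ⟨0, hm⟩).val < a
  · -- everything in the left block
    have hall : ∀ j, (i j).val < a := by
      intro j
      by_cases hj : j = ⟨0, hm⟩
      · rw [hj]; exact h0
      · by_contra hcon
        have h3 := hmin j hj
        rw [Fin.lt_def, skew_apply, skew_apply, skewFun_left _ _ h0, skewFun_right _ _ hcon] at h3
        have := (τ₂ ⟨(i j).val - a, by omega⟩).isLt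
        omega
    apply h₁
    refine ⟨fun j => ⟨(i j).val, hall j⟩, fun j j' hj => hi j j' hj, ?_⟩
    intro j j'
    rw [← hq' j j', Fin.lt_def, Fin.lt_def, skew_apply, skew_apply, skewFun_left _ _ (hall j),
      skewFun_left _ _ (hall j')]
    beta_reduce
    omega
  · have hall : ∀ j, ¬ (i j).val < a := by
      intro j
      by_cases hj : j = ⟨0, hm⟩
      · rw [hj]; exact h0
      · have h3 := hpos j hj
        rw [Fin.lt_def] at h3
        omega
    apply h₂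
    refine ⟨fun j => ⟨(i j).val - a, by have := hall j; omega⟩, ?_, ?_⟩
    · intro j j' hj
      have := hi j j' hj
      have := hall j
      simp only
      omega
    · intro j j'
      rw [← hq' j j', Fin.lt_def, Fin.lt_def, skew_apply, skew_apply, skewFun_right _ _ (hall j),
        skewFun_right _ _ (hall j')]

theorem av_add {m a b : ℕ} (hm : 0 < m) {q : Equiv.Perm (Fin m)} (hq : q ⟨0, hm⟩ = ⟨0, hm⟩) :
    (Av a 0 q).ncard * (Av b 0 q).ncard ≤ (Av (a + b) 0 q).ncard := by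
  let f : (Av a 0 q) × (Av b 0 q) → (Av (a + b) 0 q) := fun p =>
    ⟨skew p.1.1 p.2.1, skew_avoids hm hq p.1.2 p.2.2⟩
  have hf : Function.Injective f := by
    rintro ⟨⟨x, hx⟩, ⟨y, hy⟩⟩ ⟨⟨x', hx'⟩, ⟨y', hy'⟩⟩ h
    have := skew_injective (congrArg Subtype.val h)
    simp only at this
    obtain ⟨rfl, rfl⟩ := this
    rfl
  have h1 := Nat.card_le_card_of_injective f hf
  rw [Nat.card_prod] at h1
  exact h1

theorem av_pos {m : ℕ} (hm : 2 ≤ m) {q : Equiv.Perm (Fin m)} (hq : q ⟨0, by omega⟩ = ⟨0, by omega⟩)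
    (b : ℕ) : 1 ≤ (Av b 0 q).ncard := by
  have h1 : 1 ≤ (Av 1 0 q).ncard := by
    have : (1 : Equiv.Perm (Fin 1)) ∈ Av 1 0 q := by
      rintro ⟨i, hi, -⟩
      have := strictMono_of_gap hi (show (⟨0, by omega⟩ : Fin m) < ⟨1, by omega⟩ by simp [Fin.lt_def])
      rw [Fin.lt_def] at this
      have h1 := (i ⟨0, by omega⟩).isLt
      have h2 := (i ⟨1, by omega⟩).isLt
      omega
    rw [Nat.one_le_iff_ne_zero, Ne, Set.ncard_eq_zero (Set.toFinite _)]
    intro h0
    rw [h0] at this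
    exact this
  induction b with
  | zero =>
    have : (1 : Equiv.Perm (Fin 0)) ∈ Av 0 0 q := by
      rintro ⟨i, -, -⟩
      exact (i ⟨0, by omega⟩).elim0
    rw [Nat.one_le_iff_ne_zero, Ne, Set.ncard_eq_zero (Set.toFinite _)]
    intro h0
    rw [h0] at this
    exact this
  | succ b ih =>
    exact (Nat.mul_le_mul ih h1).trans (av_add (by omega) hq)

theorem av_mul {m h : ℕ} (hm : 2 ≤ m) {q : Equiv.Perm (Fin m)} (hq : q ⟨0, by omega⟩ = ⟨0, by omega⟩)
    (a b : ℕ) : (Av h 0 q).ncard ^ a ≤ (Av (a * h + b) 0 q).ncard := by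
  induction a with
  | zero => rw [pow_zero]; exact av_pos hm hq _
  | succ a ih =>
    have h1 := av_add (a := h) (b := a * h + b) (by omega) hq
    have e : (a + 1) * h + b = h + (a * h + b) := by ring
    rw [e, pow_succ, mul_comm]
    exact (Nat.mul_le_mul_left _ ih).trans h1

end Pool.Agent.R552.DPat
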