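import Pool.Agent.R552.DPat.Defs

set_option autoImplicit false
set_option maxHeartbeats 400000

namespace Pool.Agent.R552.DPat

open Finset

theorem strictMono_of_gap {m n r : ℕ} {i : Fin m → Fin n}
    (h : ∀ j j' : Fin m, j'.val = j.val + 1 → (i j).val + (r + 1) ≤ (i j').val) : StrictMono i := by
  have key : ∀ d : ℕ, ∀ j j' : Fin m, j'.val = j.val + d + 1 → i j < i j' := by
    intro d
    induction d with
    | zero => intro j j' hj; have := h j j' (by omega); rw [Fin.lt_def]; omega
    | succ d ih =>
      intro j j' hj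
      have hlt : j.val + d + 1 < m := by have := j'.isLt; omega
      have h1 := ih j ⟨j.val + d + 1, hlt⟩ rfl
      have h2 := h ⟨j.val + d + 1, hlt⟩ j' (by simp only; omega)
      rw [Fin.lt_def] at h1 ⊢
      omega
  intro j j' hlt
  rw [Fin.lt_def] at hlt
  exact key (j'.val - j.val - 1) j j' (by omega)

theorem contains_zero {m n r : ℕ} {q : Equiv.Perm (Fin m)} {π : Equiv.Perm (Fin n)}
    (h : Contains r q π) : Contains 0 q π := by
  obtain ⟨i, h1, h2⟩ := h
  exact ⟨i, fun j j' hj => by have := h1 j j' hj; omega, h2⟩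

/-- no long increasing subsequence -/
theorem card_le {m n r : ℕ} {π : Equiv.Perm (Fin n)} (h : ¬ Contains r (1 : Equiv.Perm (Fin m)) π)
    {s : Finset (Fin n)} (hs : StrictMonoOn π (s : Set (Fin n))) : s.card ≤ (m - 1) * (r + 1) := by
  by_contra hcon
  push Not at hcon
  apply h
  let e := s.orderEmbOfFin rfl
  have hidx : ∀ j : Fin m, j.val * (r + 1) < s.card := by
    intro j
    have : j.val ≤ m - 1 := by have := j.isLt; omega
    calc j.val * (r + 1) ≤ (m - 1) * (r + 1) := Nat.mul_le_mul_right _ this
      _ < s.card := hcon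
  have hmono : ∀ d : ℕ, ∀ a b : Fin s.card, b.val = a.val + d → (e a).val + d ≤ (e b).val := by
    intro d
    induction d with
    | zero => intro a b hab; have : a = b := Fin.ext (by omega); rw [this]; omega
    | succ d ih =>
      intro a b hab
      have hlt : a.val + d < s.card := by have := b.isLt; omega
      have h1 := ih a ⟨a.val + d, hlt⟩ rfl
      have h2 : e ⟨a.val + d, hlt⟩ < e b := e.strictMono (by rw [Fin.lt_def]; simp only; omega)
      rw [Fin.lt_def] at h2
      omega
  refine ⟨fun j => e ⟨j.val * (r + 1), hidx j⟩, ?_, ?_⟩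
  · intro j j' hj
    apply hmono (r + 1)
    simp only
    rw [hj]; ring
  · intro j j'
    have hmem : ∀ a, e a ∈ (s : Set (Fin n)) := fun a => s.orderEmbOfFin_mem rfl a
    rw [hs.lt_iff_lt (hmem _) (hmem _), e.lt_iff_lt, Fin.lt_def]
    simp only [Equiv.Perm.coe_one, id_eq]
    rw [Fin.lt_def]
    constructor
    · intro hh; exact Nat.lt_of_mul_lt_mul_right hh
    · intro hh; exact Nat.mul_lt_mul_of_pos_right hh (by omega)

/-- length of the longest increasing subsequence ending at `x` -/
noncomputable def lab {n : ℕ} (π : Equiv.Perm (Fin n)) (x : Fin n) : ℕ := by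
  classical
  exact ((univ : Finset (Finset (Fin n))).filter (fun s : Finset (Fin n) =>
    (∀ y ∈ s, y ≤ x ∧ π y ≤ π x) ∧ StrictMonoOn π (s : Set (Fin n)))).sup card

theorem lab_lt {n : ℕ} (π : Equiv.Perm (Fin n)) {x y : Fin n} (hxy : x < y) (hπ : π x < π y) :
    lab π x < lab π y := by
  classical
  unfold lab
  -- the sup is attained
  set F := (univ : Finset (Finset (Fin n))).filter (fun s : Finset (Fin n) =>
    (∀ z ∈ s, z ≤ x ∧ π z ≤ π x) ∧ StrictMonoOn π (s : Set (Fin n))) with hF
  have hne : F.Nonempty := ⟨∅, by simp [hF, StrictMonoOn]⟩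
  obtain ⟨s, hs, hse⟩ := Finset.exists_mem_eq_sup F hne card
  rw [hse]
  simp only [hF, mem_filter, mem_univ, true_and] at hs
  have hy : y ∉ s := fun hy => absurd (hs.1 y hy).1 (not_le.2 hxy)
  have hmem : insert y s ∈ (univ : Finset (Finset (Fin n))).filter (fun s : Finset (Fin n) =>
      (∀ z ∈ s, z ≤ y ∧ π z ≤ π y) ∧ StrictMonoOn π (s : Set (Fin n))) := by
    simp only [mem_filter, mem_univ, true_and, mem_insert, forall_eq_or_imp, le_refl, and_self]
    refine ⟨fun z hz => ⟨(hs.1 z hz).1.trans hxy.le, (hs.1 z hz).2.trans hπ.le⟩, ?_⟩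
    intro a ha b hb hab
    simp only [coe_insert, Set.mem_insert_iff, mem_coe] at ha hb
    rcases ha with rfl | ha <;> rcases hb with rfl | hb
    · exact absurd hab (lt_irrefl _)
    · exact absurd ((hs.1 b hb).1.trans_lt hxy) (not_lt.2 hab.le)
    · exact (hs.1 a ha).2.trans_lt hπ
    · exact hs.2 ha hb hab
  have := Finset.le_sup (f := card) hmem
  rw [card_insert_of_notMem hy] at this
  exact this

theorem lab_le {m n r : ℕ} {π : Equiv.Perm (Fin n)} (h : ¬ Contains r (1 : Equiv.Perm (Fin m)) π)
    (x : Fin n) : lab π x < (m - 1) * (r + 1) + 1 := by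
  classical
  unfold lab
  rw [Nat.lt_succ_iff]
  apply Finset.sup_le
  intro s hs
  simp only [mem_filter, mem_univ, true_and] at hs
  exact card_le h hs.2

theorem lab_inj {n : ℕ} {π π' : Equiv.Perm (Fin n)} (h1 : ∀ x, lab π x = lab π' x)
    (h2 : ∀ v, lab π (π.symm v) = lab π' (π'.symm v)) : π = π' := by
  classical
  ext x
  -- count
  have cnt : ∀ (ρ : Equiv.Perm (Fin n)),
      (univ.filter (fun v => lab ρ (ρ.symm v) = lab ρ x ∧ ρ x < v)).card =
      (univ.filter (fun y => lab ρ y = lab ρ x ∧ y < x)).card := by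
    intro ρ
    symm
    apply Finset.card_bij (fun y _ => ρ y)
    · intro y hy
      simp only [mem_filter, mem_univ, true_and, Equiv.symm_apply_apply] at hy ⊢
      refine ⟨hy.1, ?_⟩
      by_contra hcon
      push Not at hcon
      rcases lt_or_eq_of_le hcon with h | h
      · exact absurd (lab_lt ρ hy.2 h) (by rw [hy.1]; exact lt_irrefl _)
      · exact absurd (ρ.injective h) (ne_of_lt hy.2)
    · intro a _ b _ hab; exact ρ.injective hab
    · intro v hv
      simp only [mem_filter, mem_univ, true_and] at hv
      refine ⟨ρ.symm v, ?_, by simp⟩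
      simp only [mem_filter, mem_univ, true_and]
      refine ⟨hv.1, ?_⟩
      by_contra hcon
      push Not at hcon
      rcases lt_or_eq_of_le hcon with h | h
      · have := lab_lt ρ h (by simpa using hv.2)
        rw [hv.1] at this
        exact lt_irrefl _ this
      · have : ρ x = v := by rw [h]; simp
        rw [this] at hv
        exact lt_irrefl _ hv.2
  have c1 := cnt π
  have c2 := cnt π'
  have e1 : (univ.filter (fun y => lab π y = lab π x ∧ y < x)) =
      (univ.filter (fun y => lab π' y = lab π' x ∧ y < x)) := by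
    apply Finset.filter_congr; intro y _; rw [h1, h1]
  rw [e1, ← c2] at c1
  -- the two upper sets
  set S := univ.filter (fun v => lab π (π.symm v) = lab π x ∧ π x < v) with hS
  have e2 : (univ.filter (fun v => lab π' (π'.symm v) = lab π' x ∧ π' x < v)) =
      univ.filter (fun v => lab π (π.symm v) = lab π x ∧ π' x < v) := by
    apply Finset.filter_congr; intro v _; rw [← h2, ← h1]
  rw [e2] at c1
  set S' := univ.filter (fun v => lab π (π.symm v) = lab π x ∧ π' x < v) with hS'
  rcases lt_trichotomy (π x) (π' x) with hlt | heq | hgt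
  · exfalso
    have hsub : S' ⊂ S := by
      rw [Finset.ssubset_iff_of_subset]
      · refine ⟨π' x, ?_, ?_⟩
        · simp only [hS, mem_filter, mem_univ, true_and]
          refine ⟨?_, hlt⟩
          rw [h2]; simp [h1]
        · simp [hS']
      · intro v hv
        simp only [hS, hS', mem_filter, mem_univ, true_and] at hv ⊢
        exact ⟨hv.1, hlt.trans hv.2⟩
    have := Finset.card_lt_card hsub
    omega
  · rw [heq]
  · exfalso
    have hsub : S ⊂ S' := by
      rw [Finset.ssubset_iff_of_subset]
      · refine ⟨π x, ?_, ?_⟩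
        · simp only [hS', mem_filter, mem_univ, true_and]
          exact ⟨by simp, hgt⟩
        · simp [hS]
      · intro v hv
        simp only [hS, hS', mem_filter, mem_univ, true_and] at hv ⊢
        exact ⟨hv.1, hgt.trans hv.2⟩
    have := Finset.card_lt_card hsub
    omega

/-- upper bound for the increasing pattern -/
theorem upper (m n r : ℕ) :
    (Av n r (1 : Equiv.Perm (Fin m))).ncard ≤ ((m - 1) * (r + 1) + 1) ^ (2 * n) := by
  classical
  set M := (m - 1) * (r + 1) + 1 with hM
  let f : Av n r (1 : Equiv.Perm (Fin m)) → (Fin n → Fin M) × (Fin n → Fin M) := fun π =>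
    (fun x => ⟨lab π.1 x, lab_le π.2 x⟩, fun v => ⟨lab π.1 (π.1.symm v), lab_le π.2 _⟩)
  have hf : Function.Injective f := by
    intro π π' hh
    apply Subtype.ext
    apply lab_inj
    · intro x
      have := congrFun (congrArg Prod.fst hh) x
      exact congrArg Fin.val this
    · intro v
      have := congrFun (congrArg Prod.snd hh) v
      exact congrArg Fin.val this
  have h1 := Nat.card_le_card_of_injective f hf
  have h2 : Nat.card ((Fin n → Fin M) × (Fin n → Fin M)) = M ^ (2 * n) := by
    simp [two_mul, pow_add]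
  rw [h2] at h1
  exact h1

end Pool.Agent.R552.DPat
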